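import Mathlib
import Pool.Agent.K3h22.EX.Stm

/-! EX brick MODEL (for helper22): primitive element with denominators, and real generic points. -/

set_option autoImplicit false

namespace Pool.Agent.K3h30.EX

open Pool.Agent.K3h22.EX

section Model

open Polynomial IntermediateField

/-- clearing denominators of one polynomial -/
theorem clear_den {A F : Type} [CommRing A] [IsDomain A] [Field F] [Algebra A F]
    [IsFractionRing A F] (p : F[X]) : ∃ b : A, b ≠ 0 ∧ ∃ N : A[X],
      N.map (algebraMap A F) = C (algebraMap A F b) * p := by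
  obtain ⟨b, hb, h⟩ := IsLocalization.integerNormalization_spec (nonZeroDivisors A) p
  refine ⟨b, nonZeroDivisors.ne_zero hb, _, h.trans ?_⟩
  rw [← IsScalarTower.algebraMap_smul F b p, Polynomial.smul_eq_C_mul]

theorem t_MODEL : S_MODEL := by
  intro A K κ _ _ _ _ _ _ _ hinj y hy
  classical
  have : Fintype κ := Fintype.ofFinite κ
  have : FaithfulSMul A K := (faithfulSMul_iff_algebraMap_injective A K).2 hinj
  let F := FractionRing A
  let _ : Algebra F K := FractionRing.liftAlgebra A K
  have : IsScalarTower A F K := FractionRing.isScalarTower_liftAlgebra A K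
  have : CharZero F := by
    refine ⟨fun m n h => ?_⟩
    have h2 := congrArg (algebraMap F K) h
    rw [map_natCast, map_natCast] at h2
    exact Nat.cast_injective h2
  have hAF : Function.Injective (algebraMap A F) := IsFractionRing.injective A F
  -- the field generated
  have hyF : ∀ j, IsAlgebraic F (y j) := fun j => (hy j).extendScalars hAF
  let L := adjoin F (Set.range y)
  have : FiniteDimensional F L := finiteDimensional_adjoin (by
    rintro x ⟨j, rfl⟩; exact (hyF j).isIntegral)
  obtain ⟨α, hα⟩ := Field.exists_primitive_element F L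
  have hαint : IsAlgebraic F α := Algebra.IsAlgebraic.isAlgebraic α
  -- every y j is a polynomial in α
  have hpol : ∀ j, ∃ p : F[X], y j = aeval (α : K) p := by
    intro j
    have h1 : (⟨y j, subset_adjoin F _ ⟨j, rfl⟩⟩ : L) ∈ (F⟮α⟯).toSubalgebra := by
      rw [hα]; trivial
    rw [adjoin_simple_toSubalgebra_of_isAlgebraic hαint,
      Algebra.adjoin_singleton_eq_range_aeval] at h1
    obtain ⟨p, hp⟩ := h1
    refine ⟨p, ?_⟩
    have h3 := congrArg (fun x : L => algebraMap L K x) hp
    have h4 : aeval (algebraMap L K α) p = algebraMap L K (aeval α p) :=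
      Polynomial.aeval_algebraMap_apply K α p
    have h5 : algebraMap L K (aeval α p) = y j := h3
    rw [← h5, ← h4]
    rfl
  -- an integral multiple of α
  have hαA : IsAlgebraic A (α : K) := by
    have h1 : IsAlgebraic F (α : K) := by
      exact hαint.algebraMap (A := K)
    exact (IsFractionRing.isAlgebraic_iff A F K).2 h1
  obtain ⟨d, hd, hint⟩ := hαA.exists_integral_multiple
  set θ : K := d • (α : K) with hθ
  have hdF : algebraMap A F d ≠ 0 := by
    rw [Ne, map_eq_zero_iff _ hAF]; exact hd
  have hpolθ : ∀ j, ∃ p : F[X], y j = aeval θ p := by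
    intro j
    obtain ⟨p, hp⟩ := hpol j
    refine ⟨p.comp (C (algebraMap A F d)⁻¹ * X), ?_⟩
    rw [aeval_comp, hp]
    congr 1
    rw [map_mul, aeval_C, aeval_X, hθ, Algebra.smul_def, ← mul_assoc,
      IsScalarTower.algebraMap_apply A F K, ← map_mul, inv_mul_cancel₀ hdF, map_one, one_mul]
  choose P hP using hpolθ
  have hclear := fun j => clear_den (A := A) (P j)
  choose b hb N hN using hclear
  -- the minimal polynomial
  have hmin : minpoly F θ = (minpoly A θ).map (algebraMap A F) :=
    minpoly.isIntegrallyClosed_eq_field_fractions' F hint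
  have hsep : (minpoly F θ).Separable :=
    (minpoly.irreducible (hint.tower_top)).separable
  obtain ⟨u, w, huw⟩ := hsep
  obtain ⟨b1, hb1, U, hU⟩ := clear_den (A := A) u
  obtain ⟨b2, hb2, W, hW⟩ := clear_den (A := A) w
  refine ⟨θ, ∏ j, b j, b1 * b2, fun j => C (∏ i ∈ Finset.univ.erase j, b i) * N j,
    C b2 * U, C b1 * W, hint, ?_, mul_ne_zero hb1 hb2, ?_, ?_⟩
  · rw [Finset.prod_ne_zero_iff]; exact fun j _ => hb j
  · intro j
    rw [map_mul, aeval_C, ← Finset.mul_prod_erase Finset.univ b (Finset.mem_univ j), map_mul,
      mul_comm (algebraMap A K (b j)), mul_assoc]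
    congr 1
    have h1 : aeval θ (N j) = aeval θ ((N j).map (algebraMap A F)) := by
      rw [Polynomial.aeval_map_algebraMap]
    rw [h1, hN, map_mul, aeval_C, ← hP, ← IsScalarTower.algebraMap_apply A F K]
  · apply Polynomial.map_injective (algebraMap A F) hAF
    rw [hmin] at huw
    rw [Polynomial.map_add, Polynomial.map_mul, Polynomial.map_mul, Polynomial.map_mul,
      Polynomial.map_mul, Polynomial.map_C, Polynomial.map_C, Polynomial.map_C,
      ← Polynomial.derivative_map, hU, hW, map_mul, map_mul]
    have h6 : C (algebraMap A F b2) * (C (algebraMap A F b1) * u) * map (algebraMap A F) (minpoly A θ) +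
        C (algebraMap A F b1) * (C (algebraMap A F b2) * w) *
          derivative (map (algebraMap A F) (minpoly A θ))
        = C (algebraMap A F b1) * C (algebraMap A F b2) * (u * map (algebraMap A F) (minpoly A θ) +
          w * derivative (map (algebraMap A F) (minpoly A θ))) := by ring
    rw [h6, huw, mul_one]

end Model

section Real

open MvPolynomial Set

/-- a nonzero polynomial does not vanish on any nonempty open set of real points -/
theorem dense_ne {s : ℕ} (q : MvPolynomial (Fin s) ℂ) (hq : q ≠ 0) :
    Dense {a : Fin s → ℝ | eval (fun i => (a i : ℂ)) q ≠ 0} := by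
  rw [Metric.dense_iff]
  intro a r hr
  by_contra hcon
  apply hq
  refine MvPolynomial.funext_set (fun i => (fun t : ℝ => (t : ℂ)) '' (Ioo (a i - r) (a i + r)))
    (fun i => ?_) (fun x hx => ?_)
  · refine (Ioo_infinite (by linarith)).image ?_
    intro u _ v _ h
    exact Complex.ofReal_injective h
  · rw [map_zero]
    choose! b hb hbx using fun i => hx i (mem_univ i)
    have hxb : x = fun i => ((b i : ℝ) : ℂ) := by
      funext i; exact (hbx i).symm
    by_contra hne
    apply hcon
    refine ⟨b, ?_, ?_⟩
    · rw [Metric.mem_ball, dist_pi_lt_iff hr]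
      intro i
      rw [Real.dist_eq, abs_lt]
      have := hb i
      constructor <;> linarith [this.1, this.2]
    · show eval (fun i => (b i : ℂ)) q ≠ 0
      rw [← hxb]; exact hne

theorem isOpen_nev {s : ℕ} (q : MvPolynomial (Fin s) ℂ) :
    IsOpen {a : Fin s → ℝ | eval (fun i => (a i : ℂ)) q ≠ 0} := by
  have : Continuous fun a : Fin s → ℝ => eval (fun i => (a i : ℂ)) q := by
    have h1 : Continuous fun z : Fin s → ℂ => eval z q := MvPolynomial.continuous_eval q
    exact h1.comp (continuous_pi fun i => Complex.continuous_ofReal.comp (continuous_apply i))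
  exact isOpen_ne.preimage this

theorem t_GENREAL : S_GENREAL := by
  intro s q hq
  -- the family of linear forms
  let P : (Fin s → ℤ) → MvPolynomial (Fin s) ℂ := fun m =>
    if m = 0 then q else ∑ i, MvPolynomial.C ((m i : ℤ) : ℂ) * X i
  have hP : ∀ m, P m ≠ 0 := by
    intro m
    by_cases hm : m = 0
    · simpa [P, hm] using hq
    · simp only [P, hm, if_false]
      obtain ⟨j, hj⟩ := Function.ne_iff.1 hm
      intro h0
      have := congrArg (eval (Pi.single j (1 : ℂ))) h0
      rw [map_sum, map_zero] at this
      simp only [map_mul, eval_C, eval_X] at this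
      rw [Finset.sum_eq_single j] at this
      · simp at this
        exact hj this
      · intro b _ hb
        simp [hb]
      · intro h; exact absurd (Finset.mem_univ j) h
  have hd : Dense (⋂ m : Fin s → ℤ, {a : Fin s → ℝ | eval (fun i => (a i : ℂ)) (P m) ≠ 0}) :=
    dense_iInter_of_isOpen (fun m => isOpen_nev (P m)) (fun m => dense_ne (P m) (hP m))
  obtain ⟨a, ha⟩ := hd.nonempty
  rw [mem_iInter] at ha
  refine ⟨a, ?_, ?_⟩
  · have := ha 0
    simpa [P] using this
  · intro m hm h0
    have h2 := ha m
    simp only [P, hm, if_false, mem_ofPred_eq, map_sum, map_mul, eval_C, eval_X] at h2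
    apply h2
    have h1 := congrArg (fun t : ℝ => (t : ℂ)) h0
    push_cast at h1
    exact_mod_cast h1

end Real

end Pool.Agent.K3h30.EX
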